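import Pool.Agent.Q145.ART.Stm

/-!
# Project ART of helper145: job LOW, lower bound for the main term
-/

set_option autoImplicit false

namespace Pool.Agent.Q65.ART

open Finset Filter
open Pool.Agent.Q145.ART

theorem exp_neg_le {u : ℝ} (h0 : 0 ≤ u) (h1 : u ≤ 1 / 2) : Real.exp (-(2 * u)) ≤ 1 - u := by
  have h2 : 1 + 2 * u ≤ Real.exp (2 * u) := by
    have := Real.add_one_le_exp (2 * u)
    linarith
  have h3 : 0 < 1 + 2 * u := by linarith
  rw [Real.exp_neg]
  have h4 : (Real.exp (2 * u))⁻¹ ≤ (1 + 2 * u)⁻¹ := inv_anti₀ h3 h2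
  refine h4.trans ?_
  rw [inv_le_iff_one_le_mul₀ h3]
  nlinarith

/-- the totient quotient of a number with few small prime factors -/
theorem tot_low (n : ℕ) (L : ℝ) (hL : 2 ≤ L) (hn : 2 ∣ n) (hn0 : n ≠ 0) (hnL : Real.log n ≤ L)
    (hq : ∀ q : ℕ, q.Prime → 3 ≤ q → (q : ℝ) ≤ L ^ 2 → ¬ q ∣ n) :
    (1 / 2 : ℝ) * (1 - 1 / L) ≤ (Nat.totient n : ℝ) / n := by
  have hn' : (0 : ℝ) < n := by positivity
  have h1 : (Nat.totient n : ℝ) = n * ∏ p ∈ n.primeFactors, (1 - (p : ℝ)⁻¹) := by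
    have h := congrArg (fun q : ℚ => (q : ℝ)) (Nat.totient_eq_mul_prod_factors n)
    push_cast at h
    exact h
  rw [h1, mul_div_cancel_left₀ _ hn'.ne']
  have h2mem : 2 ∈ n.primeFactors := Nat.mem_primeFactors.2 ⟨Nat.prime_two, hn, hn0⟩
  rw [← Finset.mul_prod_erase _ _ h2mem]
  have h2 : (1 - ((2 : ℕ) : ℝ)⁻¹) = 1 / 2 := by norm_num
  rw [h2]
  refine mul_le_mul_of_nonneg_left ?_ (by norm_num)
  set O := n.primeFactors.erase 2 with hO
  have hO3 : ∀ q ∈ O, q.Prime ∧ 3 ≤ q ∧ q ∣ n := by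
    intro q hq'
    rw [hO, Finset.mem_erase, Nat.mem_primeFactors] at hq'
    have := hq'.2.1.two_le
    refine ⟨hq'.2.1, ?_, hq'.2.2.1⟩
    omega
  have hL0 : 0 < L := by linarith
  have h3 : ∀ q ∈ O, (1 - 1 / L ^ 2) ≤ 1 - ((q : ℕ) : ℝ)⁻¹ := by
    intro q hq'
    obtain ⟨a, b, c⟩ := hO3 q hq'
    have h4 : L ^ 2 < q := by
      by_contra hcon
      exact hq q a b (not_lt.1 hcon) c
    have h5 : ((q : ℕ) : ℝ)⁻¹ ≤ 1 / L ^ 2 := by
      rw [one_div]
      exact inv_anti₀ (by positivity) h4.le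
    linarith
  have hL2 : 1 / L ^ 2 ≤ 1 := by
    rw [div_le_one (by positivity)]
    nlinarith
  have h6 : (1 - 1 / L ^ 2) ^ O.card ≤ ∏ q ∈ O, (1 - ((q : ℕ) : ℝ)⁻¹) := by
    rw [← Finset.prod_const]
    exact Finset.prod_le_prod (fun q _ => by linarith) h3
  refine le_trans ?_ h6
  have h7 : (O.card : ℝ) ≤ L := by
    have h8 : 3 ^ O.card ≤ n := by
      have h9 : ∏ q ∈ O, 3 ≤ ∏ q ∈ O, q := Finset.prod_le_prod' fun q hq' => (hO3 q hq').2.1
      rw [Finset.prod_const] at h9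
      have h10 : ∏ q ∈ O, q ∣ n :=
        (Finset.prod_dvd_prod_of_subset _ _ _ (Finset.erase_subset _ _)).trans
          (Nat.prod_primeFactors_dvd n)
      exact h9.trans (Nat.le_of_dvd (Nat.pos_of_ne_zero hn0) h10)
    have h11 : (O.card : ℝ) * Real.log 3 ≤ Real.log n := by
      rw [← Real.log_pow]
      exact Real.log_le_log (by positivity) (by exact_mod_cast h8)
    have h12 : 1 ≤ Real.log 3 := by
      rw [Real.le_log_iff_exp_le (by norm_num)]
      exact Real.exp_one_lt_three.le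
    have h13 : (0 : ℝ) ≤ O.card := by positivity
    nlinarith
  have h14 := one_add_mul_le_pow (a := -(1 / L ^ 2)) (by linarith) O.card
  have h15 : 1 - 1 / L ≤ 1 + (O.card : ℝ) * -(1 / L ^ 2) := by
    have h16 : (O.card : ℝ) * (1 / L ^ 2) ≤ 1 / L := by
      have h17 : (O.card : ℝ) * (1 / L ^ 2) ≤ L * (1 / L ^ 2) :=
        mul_le_mul_of_nonneg_right h7 (by positivity)
      have h18 : L * (1 / L ^ 2) = 1 / L := by
        field_simp
      linarith
    linarith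
  refine h15.trans (h14.trans (le_of_eq ?_))
  ring

theorem t_LOW : S_LOW := by
  intro hSV
  obtain ⟨C, hC⟩ := hSV
  have hlog : ∀ᶠ x : ℕ in atTop, Real.exp 16 ≤ Real.log x :=
    (Real.tendsto_log_atTop.comp tendsto_natCast_atTop_atTop).eventually_ge_atTop _
  have hsq : ∀ᶠ x : ℕ in atTop, Real.log x ≤ Real.sqrt x := by
    have h1 := (isLittleO_log_rpow_atTop (by norm_num : (0 : ℝ) < 1 / 2)).bound one_pos
    filter_upwards [tendsto_natCast_atTop_atTop.eventually h1, eventually_ge_atTop 1] with x hx hx1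
    rw [one_mul, Real.norm_eq_abs, Real.norm_of_nonneg (by positivity)] at hx
    rw [Real.sqrt_eq_rpow]
    exact (le_abs_self _).trans hx
  obtain ⟨A, hA⟩ := eventually_atTop.1 (hlog.and hsq)
  refine ⟨max C A, ?_⟩
  intro x K hx hK
  have hxC : C ≤ x := (le_max_left _ _).trans hx
  have hxA : A ≤ x := by exact_mod_cast (le_max_right _ _).trans hx
  obtain ⟨hL16, hLs⟩ := hA x hxA
  set L := Real.log x with hL
  have he16 : (2 : ℝ) ^ 4 ≤ Real.exp 16 := by
    have := Real.add_one_le_exp (16 : ℝ)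
    linarith
  have hL2 : 16 ≤ L := by
    have : (2 : ℝ) ^ 4 = 16 := by norm_num
    linarith
  have hL0 : 0 < L := by linarith
  have hx0 : (0 : ℝ) < x := by
    rcases Nat.eq_zero_or_pos x with h | h
    · rw [h, Nat.cast_zero, Real.log_zero] at hL
      linarith
    · exact_mod_cast h
  have hcnt := hC x hxC
  classical
  unfold num at hcnt
  set F := (PP x).filter (fun p : ℕ => Real.sqrt x < (p : ℝ) ∧
    ∀ q : ℕ, q.Prime → 3 ≤ q → (q : ℝ) ≤ (Real.log x) ^ 2 → ¬ q ∣ p - 1) with hF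
  have hcard : (x : ℝ) / L ^ (5 / 2 : ℝ) ≤ (F.card : ℝ) := by
    refine hcnt.trans (le_of_eq ?_)
    congr 2
    rw [hF]
    exact Finset.filter_congr_decidable _ _ _
  have hterm : ∀ p ∈ F, (1 / 2 : ℝ) ^ K * Real.exp (-8) ≤
      ((Nat.totient (p - 1) : ℝ) / (p : ℝ)) ^ K := by
    intro p hp
    rw [hF, Finset.mem_filter, PP, Finset.mem_filter, Finset.mem_range] at hp
    obtain ⟨⟨hpx, hpp⟩, hps, hpq⟩ := hp
    have hp16 : (16 : ℝ) < p := by linarith
    have hp16' : 16 < p := by exact_mod_cast hp16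
    have hodd : 2 ∣ p - 1 := by
      have := hpp.eq_two_or_odd
      omega
    have hp1 : p - 1 ≠ 0 := by omega
    have hcast : ((p - 1 : ℕ) : ℝ) = (p : ℝ) - 1 := by
      rw [Nat.cast_sub (by omega)]
      norm_num
    have hlogn : Real.log ((p - 1 : ℕ) : ℝ) ≤ L := by
      refine Real.log_le_log (by rw [hcast]; linarith) ?_
      have : p - 1 ≤ x := by omega
      exact_mod_cast this
    have h1 := tot_low (p - 1) L (by linarith) hodd hp1 hlogn hpq
    have h2 : (Nat.totient (p - 1) : ℝ) / (p : ℝ) =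
        (Nat.totient (p - 1) : ℝ) / ((p - 1 : ℕ) : ℝ) * (1 - 1 / p) := by
      rw [hcast]
      have : (p : ℝ) - 1 ≠ 0 := by linarith
      field_simp
    have h3 : 1 - 1 / L ≤ 1 - 1 / (p : ℝ) := by
      have : 1 / (p : ℝ) ≤ 1 / L := one_div_le_one_div_of_le hL0 (by linarith)
      linarith
    have h4 : Real.exp (-(2 * (1 / L))) ≤ 1 - 1 / L := by
      refine exp_neg_le (by positivity) ?_
      rw [div_le_div_iff₀ hL0 (by norm_num)]
      linarith
    have h5 : (1 / 2 : ℝ) * Real.exp (-(4 / L)) ≤ (Nat.totient (p - 1) : ℝ) / (p : ℝ) := by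
      rw [h2]
      have h6 : Real.exp (-(4 / L)) = Real.exp (-(2 * (1 / L))) * Real.exp (-(2 * (1 / L))) := by
        rw [← Real.exp_add]
        congr 1
        ring
      have h7 : 0 < Real.exp (-(2 * (1 / L))) := Real.exp_pos _
      have h8 : 0 < 1 - 1 / L := lt_of_lt_of_le h7 h4
      calc (1 / 2 : ℝ) * Real.exp (-(4 / L)) =
            (1 / 2 * Real.exp (-(2 * (1 / L)))) * Real.exp (-(2 * (1 / L))) := by rw [h6]; ring
        _ ≤ (1 / 2 * (1 - 1 / L)) * (1 - 1 / L) := by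
            refine mul_le_mul ?_ h4 h7.le (by positivity)
            exact mul_le_mul_of_nonneg_left h4 (by norm_num)
        _ ≤ (Nat.totient (p - 1) : ℝ) / ((p - 1 : ℕ) : ℝ) * (1 - 1 / p) :=
            mul_le_mul h1 h3 h8.le (by positivity)
    have h9 : (1 / 2 : ℝ) ^ K * Real.exp (-8) ≤ ((1 / 2 : ℝ) * Real.exp (-(4 / L))) ^ K := by
      rw [mul_pow, ← Real.exp_nat_mul]
      refine mul_le_mul_of_nonneg_left ?_ (by positivity)
      refine Real.exp_le_exp.2 ?_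
      have h10 : (K : ℝ) * (4 / L) ≤ 8 := by
        rw [mul_div_assoc', div_le_iff₀ hL0]
        linarith
      linarith
    exact h9.trans (pow_le_pow_left₀ (by positivity) h5 K)
  have hsum : (F.card : ℝ) * ((1 / 2 : ℝ) ^ K * Real.exp (-8)) ≤
      ∑ p ∈ PP x, ((Nat.totient (p - 1) : ℝ) / (p : ℝ)) ^ K := by
    have h1 : ∑ p ∈ F, ((Nat.totient (p - 1) : ℝ) / (p : ℝ)) ^ K ≤
        ∑ p ∈ PP x, ((Nat.totient (p - 1) : ℝ) / (p : ℝ)) ^ K :=
      Finset.sum_le_sum_of_subset_of_nonneg (Finset.filter_subset _ _)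
        fun p _ _ => by positivity
    have h2 := Finset.sum_le_sum hterm
    rw [Finset.sum_const, nsmul_eq_mul] at h2
    exact h2.trans h1
  refine le_trans ?_ hsum
  have h1 : (x : ℝ) / L ^ 3 ≤ (x : ℝ) / L ^ (5 / 2 : ℝ) * Real.exp (-8) := by
    have h2 : Real.exp 8 ≤ L ^ (1 / 2 : ℝ) := by
      have h3 : Real.exp 8 = (Real.exp 16) ^ (1 / 2 : ℝ) := by
        rw [← Real.exp_mul]
        norm_num
      rw [h3]
      exact Real.rpow_le_rpow (Real.exp_pos _).le hL16 (by norm_num)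
    have h4 : L ^ 3 = L ^ (5 / 2 : ℝ) * L ^ (1 / 2 : ℝ) := by
      rw [← Real.rpow_natCast, ← Real.rpow_add hL0]
      norm_num
    have h5 : 0 < L ^ (5 / 2 : ℝ) := Real.rpow_pos_of_pos hL0 _
    have h6 : 0 < Real.exp 8 := Real.exp_pos _
    rw [h4, Real.exp_neg, ← div_eq_mul_inv, div_div]
    refine div_le_div_of_nonneg_left hx0.le (by positivity) ?_
    exact mul_le_mul_of_nonneg_left h2 h5.le
  calc (1 / 2 : ℝ) ^ K * ((x : ℝ) / L ^ 3) ≤
        (1 / 2 : ℝ) ^ K * ((x : ℝ) / L ^ (5 / 2 : ℝ) * Real.exp (-8)) :=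
        mul_le_mul_of_nonneg_left h1 (by positivity)
    _ = ((x : ℝ) / L ^ (5 / 2 : ℝ)) * ((1 / 2 : ℝ) ^ K * Real.exp (-8)) := by ring
    _ ≤ (F.card : ℝ) * ((1 / 2 : ℝ) ^ K * Real.exp (-8)) :=
        mul_le_mul_of_nonneg_right hcard (by positivity)

end Pool.Agent.Q65.ART

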